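import Pool.Agent.U220.RD.Stm

/-! Project RD, package COORD: coordinate valuations and transcendence bases. -/

namespace Pool.Agent.U346.RD

open MvPolynomial Pool.Agent.U220.RD

theorem isAlg_of_adjoin_top {σ κ : Type} [Field κ] [Algebra ℂ κ] (g : σ → κ)
    (hg : IntermediateField.adjoin ℂ (Set.range g) = ⊤) :
    Algebra.IsAlgebraic (Algebra.adjoin ℂ (Set.range g)) κ := by
  refine ⟨fun y => ?_⟩
  have hy : y ∈ IntermediateField.adjoin ℂ (Set.range g) := by rw [hg]; trivial
  obtain ⟨p, hp, q, hq, rfl⟩ := IntermediateField.mem_adjoin_iff_div.mp hy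
  by_cases h0 : q = 0
  · rw [h0, div_zero]
    exact isAlgebraic_zero
  · refine ⟨Polynomial.C (⟨q, hq⟩ : Algebra.adjoin ℂ (Set.range g)) * Polynomial.X -
      Polynomial.C ⟨p, hp⟩, ?_, ?_⟩
    · intro h
      have h1 := congrArg (fun P => Polynomial.coeff P 1) h
      simp only [Polynomial.coeff_sub, Polynomial.coeff_C_mul, Polynomial.coeff_X_one, mul_one,
        Polynomial.coeff_C_succ, sub_zero, Polynomial.coeff_zero] at h1
      exact h0 (congrArg Subtype.val h1)
    · have : (algebraMap (Algebra.adjoin ℂ (Set.range g)) κ) ⟨q, hq⟩ = q := rfl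
      have h2 : (algebraMap (Algebra.adjoin ℂ (Set.range g)) κ) ⟨p, hp⟩ = p := rfl
      simp only [map_sub, map_mul, Polynomial.aeval_C, Polynomial.aeval_X, this, h2]
      field_simp
      ring

theorem t_TRB : S_TRB := by
  intro σ κ _ _ _ g hg hc
  have halg := isAlg_of_adjoin_top g hg
  exact (Algebra.IsAlgebraic.isTranscendenceBasis_of_le_trdeg_of_finite ℂ g
    (by rwa [Cardinal.mk_fintype])).1

theorem t_GENB : S_GENB := by
  intro ι W κ _ _ _ _ _ a S e t z hG B heB hBS hli hsp
  classical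
  set g : {j // j ∈ S.erase e} → κ := fun j => if (j : ι) ∈ B then t (a j) else z j with hgdef
  set F := IntermediateField.adjoin ℂ (Set.range g) with hF
  have ht : ∀ w : W, t w ∈ F := by
    intro w
    have h1 : Submodule.span ℂ (a '' (B : Set ι)) ≤
        (Subalgebra.toSubmodule F.toSubalgebra).comap t := by
      rw [Submodule.span_le]
      rintro _ ⟨b, hb, rfl⟩
      change t (a b) ∈ F
      by_cases hbe : b = e
      · rw [hbe, hG.te]; exact F.one_mem
      · have hb' : b ∈ S.erase e := Finset.mem_erase.mpr ⟨hbe, hBS hb⟩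
        have h2 : t (a b) = g ⟨b, hb'⟩ := by
          simp only [hgdef]
          rw [if_pos (show b ∈ B from hb)]
        rw [h2]
        exact IntermediateField.subset_adjoin ℂ _ ⟨_, rfl⟩
    have h3 : w ∈ Submodule.span ℂ (a '' (B : Set ι)) := by rw [hsp]; trivial
    exact h1 h3
  have hz0 : ∀ i ∈ S, i ∉ B → z i ∈ F := by
    intro i hi hiB
    have hie : i ≠ e := fun h => hiB (h ▸ heB)
    have hi' : i ∈ S.erase e := Finset.mem_erase.mpr ⟨hie, hi⟩
    have h2 : z i = g ⟨i, hi'⟩ := by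
      simp only [hgdef]
      rw [if_neg hiB]
    rw [h2]
    exact IntermediateField.subset_adjoin ℂ _ ⟨_, rfl⟩
  have hz : ∀ i ∈ S, z i ∈ F := by
    intro i hi
    by_cases hiB : i ∈ B
    · have hsp' : ⊤ ≤ Submodule.span ℂ (Set.range (fun b : B => a b)) := by
        rw [← hsp]
        apply Submodule.span_mono
        rintro _ ⟨b, hb, rfl⟩
        exact ⟨⟨b, hb⟩, rfl⟩
      let bs := Module.Basis.mk hli hsp'
      let ψ : W →ₗ[ℂ] ℂ := bs.coord ⟨i, hiB⟩
      have hψ : ∀ b : B, ψ (a b) = if b = ⟨i, hiB⟩ then 1 else 0 := by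
        intro b
        have hb : bs b = a b := by simp [bs]
        rw [← hb]
        change bs.coord ⟨i, hiB⟩ (bs b) = _
        rw [Module.Basis.coord_apply, Module.Basis.repr_self, Finsupp.single_apply]
      have hrel := hG.rel ψ
      rw [← Finset.add_sum_erase S _ hi] at hrel
      have h1 : ψ (a i) = 1 := by
        have := hψ ⟨i, hiB⟩
        simpa using this
      rw [h1, one_smul] at hrel
      have h2 : z i = - ∑ x ∈ S.erase i, ψ (a x) • z x := eq_neg_of_add_eq_zero_left hrel
      rw [h2]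
      refine F.neg_mem (sum_mem fun x hx => ?_)
      obtain ⟨hxi, hxS⟩ := Finset.mem_erase.mp hx
      by_cases hxB : x ∈ B
      · have := hψ ⟨x, hxB⟩
        have h3 : ψ (a x) = 0 := by
          rw [show a x = a ((⟨x, hxB⟩ : B) : ι) from rfl, this, if_neg]
          intro h
          exact hxi (congrArg Subtype.val h)
        rw [h3, zero_smul]
        exact F.zero_mem
      · exact F.smul_mem (hz0 x hxS hxB)
    · exact hz0 i hi hiB
  have htop : F = ⊤ := by
    rw [eq_top_iff, ← hG.top, IntermediateField.adjoin_le_iff]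
    rintro _ (⟨i, hi, rfl⟩ | ⟨i, hi, rfl⟩)
    · exact ht _
    · exact hz i hi
  refine ⟨?_, htop⟩
  refine t_TRB {j // j ∈ S.erase e} κ g htop ?_
  have hcard : Fintype.card {j // j ∈ S.erase e} + 1 = S.card := by
    rw [Fintype.card_coe, Finset.card_erase_of_mem hG.mem]
    have := Finset.card_pos.mpr ⟨e, hG.mem⟩
    omega
  have h4 := hG.tr
  rw [← hcard] at h4
  push_cast at h4
  have hlt : Algebra.trdeg ℂ κ < Cardinal.aleph0 := by
    refine lt_of_le_of_lt (self_le_add_right _ 1) ?_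
    rw [h4]
    exact_mod_cast Cardinal.natCast_lt_aleph0 (n := Fintype.card {j // j ∈ S.erase e} + 1)
  obtain ⟨n, hn⟩ := Cardinal.lt_aleph0.mp hlt
  rw [hn] at h4 ⊢
  have h5 : n + 1 = Fintype.card {j // j ∈ S.erase e} + 1 := by exact_mod_cast h4
  have h6 : n = Fintype.card {j // j ∈ S.erase e} := by omega
  rw [h6]

/-- `g f` is transcendental over the field generated by the other members of the family -/
theorem transc {σ κ : Type} [Field κ] [Algebra ℂ κ] (g : σ → κ) (f : σ)
    (hg : AlgebraicIndependent ℂ g) :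
    Transcendental (IntermediateField.adjoin ℂ (g '' {f}ᶜ)) (g f) := by
  have h1 : Transcendental (Algebra.adjoin ℂ (g '' {f}ᶜ)) (g f) :=
    hg.transcendental_adjoin (s := {f}ᶜ) (i := f) (by simp)
  intro h2
  apply h1
  open scoped IntermediateField.algebraAdjoinAdjoin in
  exact (IsFractionRing.isAlgebraic_iff (Algebra.adjoin ℂ (g '' {f}ᶜ))
    (IntermediateField.adjoin ℂ (g '' {f}ᶜ)) κ).mpr h2

theorem range_compl {σ κ : Type} (g : σ → κ) (f : σ) :
    Set.range (fun j : {j // j ≠ f} => g j) = g '' {f}ᶜ := by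
  ext x
  constructor
  · rintro ⟨⟨j, hj⟩, rfl⟩
    exact ⟨j, hj, rfl⟩
  · rintro ⟨j, hj, rfl⟩
    exact ⟨⟨j, hj⟩, rfl⟩

theorem t_CEX : S_CEX := by
  intro σ κ _ _ g f hg
  set k := IntermediateField.adjoin ℂ (g '' {f}ᶜ) with hk
  have htr : Transcendental k (g f) := transc g f hg
  let A : Subring κ := (Algebra.adjoin k {g f}).toSubring
  let x : A := ⟨g f, Algebra.self_mem_adjoin_singleton k (g f)⟩
  have hI : Ideal.span {x} ≠ ⊤ := by
    intro h
    have h1 : (1 : A) ∈ Ideal.span {x} := by rw [h]; trivial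
    obtain ⟨c, hc⟩ := Ideal.mem_span_singleton'.mp h1
    obtain ⟨P, hP⟩ : ∃ P : Polynomial k, Polynomial.aeval (g f) P = (c : κ) := by
      have h2 : (c : κ) ∈ Algebra.adjoin k {g f} := c.2
      rw [Algebra.adjoin_singleton_eq_range_aeval] at h2
      exact h2
    have h3 : Polynomial.aeval (g f) (P * Polynomial.X - 1) = 0 := by
      have h4 : (c : κ) * g f = 1 := congrArg Subtype.val hc
      simp only [map_sub, map_mul, Polynomial.aeval_X, map_one, hP, h4, sub_self]
    have h5 : P * Polynomial.X - 1 = 0 := by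
      by_contra h6
      exact htr ⟨_, h6, h3⟩
    have h7 := congrArg (fun Q => Polynomial.coeff Q 0) h5
    simp at h7
  obtain ⟨O, hAO, hIO⟩ := Ideal.image_subset_nonunits_valuationSubring _ hI
  have hkO : ∀ w ∈ k, w ∈ O := fun w hw => hAO ((Algebra.adjoin k {g f}).algebraMap_mem ⟨w, hw⟩)
  refine ⟨O, ?_, ?_⟩
  · intro p hp
    have hind : AlgebraicIndependent ℂ (fun j : {j // j ≠ f} => g j) :=
      hg.comp _ Subtype.val_injective
    have hne : aeval (fun j : {j // j ≠ f} => g j) p ≠ 0 := by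
      intro h
      exact hp (hind.eq_zero_of_aeval_eq_zero p h)
    have hmem : aeval (fun j : {j // j ≠ f} => g j) p ∈ k := by
      rw [hk, ← range_compl]
      refine IntermediateField.algebra_adjoin_le_adjoin ℂ _ ?_
      rw [Algebra.adjoin_range_eq_range_aeval]
      exact ⟨p, rfl⟩
    have h1 : O.valuation (aeval (fun j : {j // j ≠ f} => g j) p) ≤ 1 :=
      (O.valuation_le_one_iff _).mpr (hkO _ hmem)
    have h2 : O.valuation (aeval (fun j : {j // j ≠ f} => g j) p)⁻¹ ≤ 1 :=
      (O.valuation_le_one_iff _).mpr (hkO _ (k.inv_mem hmem))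
    rw [map_inv₀] at h2
    have h3 : O.valuation (aeval (fun j : {j // j ≠ f} => g j) p) ≠ 0 :=
      (Valuation.ne_zero_iff _).mpr hne
    exact le_antisymm h1 ((inv_le_one₀ (zero_lt_iff.mpr h3)).mp h2)
  · exact hIO ⟨x, Ideal.subset_span rfl, rfl⟩

section CST

variable {σ κ : Type} [Field κ] [Algebra ℂ κ] (g : σ → κ) (f : σ)

/-- the hypotheses on a coordinate valuation ring -/
def CV (O : ValuationSubring κ) : Prop :=
  ResInd O (fun j : {j // j ≠ f} => g j) ∧ O.valuation (g f) < 1

theorem val_one {O : ValuationSubring κ} (hO : CV g f O) {w : κ}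
    (hw : w ∈ IntermediateField.adjoin ℂ (g '' {f}ᶜ)) (h0 : w ≠ 0) : O.valuation w = 1 := by
  rw [← range_compl, IntermediateField.mem_adjoin_range_iff] at hw
  obtain ⟨r, s, rfl⟩ := hw
  have hr : r ≠ 0 := by
    rintro rfl
    simp at h0
  have hs : s ≠ 0 := by
    rintro rfl
    simp at h0
  rw [map_div₀, hO.1 r hr, hO.1 s hs, div_one]

theorem val_le {O : ValuationSubring κ} (hO : CV g f O) {w : κ}
    (hw : w ∈ IntermediateField.adjoin ℂ (g '' {f}ᶜ)) : O.valuation w ≤ 1 := by
  by_cases h0 : w = 0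
  · rw [h0, map_zero]; exact zero_le
  · exact (val_one g f hO hw h0).le

/-- values of polynomials -/
theorem aeval_le {O : ValuationSubring κ} (hO : CV g f O)
    (P : Polynomial (IntermediateField.adjoin ℂ (g '' {f}ᶜ))) :
    O.valuation (Polynomial.aeval (g f) P) ≤ 1 := by
  rw [Polynomial.aeval_eq_sum_range]
  refine Valuation.map_sum_le _ fun i _ => ?_
  rw [Algebra.smul_def, map_mul, map_pow]
  exact mul_le_one' (val_le g f hO (P.coeff i).2) (pow_le_one' hO.2.le i)

/-- a polynomial with nonzero constant term -/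
theorem aeval_near {O : ValuationSubring κ} (hO : CV g f O)
    (P : Polynomial (IntermediateField.adjoin ℂ (g '' {f}ᶜ))) :
    O.valuation (Polynomial.aeval (g f) P - (P.coeff 0 : κ)) < 1 := by
  have h1 : Polynomial.aeval (g f) P - (P.coeff 0 : κ) =
      Polynomial.aeval (g f) P.divX * g f := by
    have h2 := congrArg (Polynomial.aeval (g f)) (Polynomial.divX_mul_X_add P)
    rw [← h2]
    simp only [map_add, map_mul, Polynomial.aeval_X, Polynomial.aeval_C]
    have h3 : (algebraMap (IntermediateField.adjoin ℂ (g '' {f}ᶜ)) κ) (P.coeff 0) =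
      (P.coeff 0 : κ) := rfl
    rw [h3]
    ring
  rw [h1, map_mul]
  refine lt_of_le_of_lt (mul_le_mul' (aeval_le g f hO _) le_rfl) ?_
  rw [one_mul]
  exact hO.2

/-- normal form of a nonzero polynomial value -/
theorem poly_nf
    (P : Polynomial (IntermediateField.adjoin ℂ (g '' {f}ᶜ))) (hP : P ≠ 0) :
    ∃ (n : ℕ) (c : κ) (r : κ), c ∈ IntermediateField.adjoin ℂ (g '' {f}ᶜ) ∧ c ≠ 0 ∧
      Polynomial.aeval (g f) P = g f ^ n * r ∧
      ∀ O : ValuationSubring κ, CV g f O → O.valuation (r - c) < 1 := by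
  obtain ⟨Q, hPQ, hQ'⟩ := Polynomial.exists_eq_pow_rootMultiplicity_mul_and_not_dvd P hP 0
  rw [map_zero, sub_zero] at hPQ hQ'
  have hQ : Q.coeff 0 ≠ 0 := fun h => hQ' (Polynomial.X_dvd_iff.mpr h)
  set n := Polynomial.rootMultiplicity 0 P
  refine ⟨n, (Q.coeff 0 : κ), Polynomial.aeval (g f) Q, (Q.coeff 0).2, ?_, ?_, ?_⟩
  · intro h
    exact hQ (Subtype.ext h)
  · rw [hPQ, map_mul, map_pow, Polynomial.aeval_X]
  · intro O hO
    exact aeval_near g f hO Q

/-- normal form of a nonzero element -/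
theorem nf (hg : AlgebraicIndependent ℂ g)
    (htop : IntermediateField.adjoin ℂ (Set.range g) = ⊤) (y : κ) (hy : y ≠ 0) :
    ∃ m : ℤ, ∃ w ∈ IntermediateField.adjoin ℂ (g '' {f}ᶜ), w ≠ 0 ∧
      ∀ O : ValuationSubring κ, CV g f O →
        O.valuation (y / g f ^ m) = 1 ∧ O.valuation (y / g f ^ m - w) < 1 := by
  set k := IntermediateField.adjoin ℂ (g '' {f}ᶜ) with hk
  have hgf : g f ≠ 0 := hg.ne_zero f
  have hadj : y ∈ IntermediateField.adjoin k {g f} := by
    have h1 : (IntermediateField.adjoin k {g f}).restrictScalars ℂ = ⊤ := by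
      rw [eq_top_iff, ← htop, IntermediateField.adjoin_le_iff]
      rintro _ ⟨j, rfl⟩
      change g j ∈ IntermediateField.adjoin k {g f}
      by_cases hj : j = f
      · rw [hj]
        exact IntermediateField.subset_adjoin k _ rfl
      · have h2 : g j ∈ k := IntermediateField.subset_adjoin ℂ _ ⟨j, hj, rfl⟩
        exact (IntermediateField.adjoin k {g f}).algebraMap_mem ⟨g j, h2⟩
    have h3 : y ∈ (IntermediateField.adjoin k {g f}).restrictScalars ℂ := by rw [h1]; trivial
    exact h3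
  obtain ⟨P, Q, hPQ⟩ := (IntermediateField.mem_adjoin_simple_iff k y).mp hadj
  have hP : P ≠ 0 := by
    rintro rfl
    simp at hPQ
    exact hy hPQ
  have hQ : Q ≠ 0 := by
    rintro rfl
    simp at hPQ
    exact hy hPQ
  obtain ⟨n, c, r, hc, hc0, hr, hrO⟩ := poly_nf g f P hP
  obtain ⟨n', c', r', hc', hc0', hr', hrO'⟩ := poly_nf g f Q hQ
  have hunit : ∀ O : ValuationSubring κ, CV g f O → ∀ c r : κ,
      c ∈ k → c ≠ 0 → O.valuation (r - c) < 1 → O.valuation r = 1 := by
    intro O hO c r hc hc0 h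
    have h1 : O.valuation c = 1 := val_one g f hO hc hc0
    have h2 : O.valuation (c + (r - c)) = O.valuation c :=
      Valuation.map_add_eq_of_lt_left _ (by rw [h1]; exact h)
    rw [add_sub_cancel, h1] at h2
    exact h2
  refine ⟨n - n', c / c', k.div_mem hc hc', div_ne_zero hc0 hc0', fun O hO => ?_⟩
  have hr1 := hunit O hO c r hc hc0 (hrO O hO)
  have hr1' := hunit O hO c' r' hc' hc0' (hrO' O hO)
  have hr0' : r' ≠ 0 := by
    rintro rfl
    rw [map_zero] at hr1'
    exact zero_ne_one hr1'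
  have hy' : y / g f ^ ((n : ℤ) - n') = r / r' := by
    rw [hPQ, hr, hr', zpow_sub₀ hgf, zpow_natCast, zpow_natCast]
    field_simp
  rw [hy']
  refine ⟨by rw [map_div₀, hr1, hr1', div_one], ?_⟩
  have h3 : r / r' - c / c' = ((r - c) * c' - (r' - c') * c) / (r' * c') := by
    field_simp
    ring
  have hv' := val_one g f hO hc' hc0'
  rw [h3, map_div₀, map_mul O.valuation r' c', hr1', hv', one_mul, div_one]
  refine Valuation.map_sub_lt _ ?_ ?_
  · rw [map_mul, hv', mul_one]
    exact hrO O hO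
  · rw [map_mul, val_one g f hO hc hc0, mul_one]
    exact hrO' O hO

theorem mem_iff_of_nf {O : ValuationSubring κ} (hO : CV g f O) (hgf : g f ≠ 0) {y : κ} {m : ℤ}
    (h : O.valuation (y / g f ^ m) = 1) : y ∈ O ↔ 0 ≤ m := by
  have h1 : O.valuation y = O.valuation (g f) ^ m := by
    rw [map_div₀, map_zpow₀] at h
    exact eq_of_div_eq_one h
  have h0 : 0 < O.valuation (g f) := zero_lt_iff.mpr ((Valuation.ne_zero_iff _).mpr hgf)
  rw [← O.valuation_le_one_iff, h1]
  constructor
  · intro h2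
    by_contra h3
    push Not at h3
    have h4 : 1 < O.valuation (g f) ^ m := one_lt_zpow_of_neg₀ h0 hO.2 h3
    exact absurd h2 (not_le.mpr h4)
  · intro h2
    obtain ⟨n, rfl⟩ := Int.eq_ofNat_of_zero_le h2
    rw [zpow_natCast]
    exact pow_le_one' hO.2.le n

end CST

theorem t_CST : S_CST := by
  intro σ κ _ _ g f hg htop O h1 h2
  have hO : CV g f O := ⟨h1, h2⟩
  refine ⟨fun w hw h0 => val_one g f hO hw h0, ?_, ?_⟩
  · intro y hy
    obtain ⟨m, w, hw, hw0, hv⟩ := nf g f hg htop y hy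
    exact ⟨m, w, hw, hw0, hv O hO⟩
  · intro O' h1' h2'
    have hO' : CV g f O' := ⟨h1', h2'⟩
    ext y
    by_cases hy : y = 0
    · rw [hy]
      exact ⟨fun _ => O.zero_mem, fun _ => O'.zero_mem⟩
    · obtain ⟨m, w, hw, hw0, hv⟩ := nf g f hg htop y hy
      rw [mem_iff_of_nf g f hO (hg.ne_zero f) (hv O hO).1,
        mem_iff_of_nf g f hO' (hg.ne_zero f) (hv O' hO').1]

end Pool.Agent.U346.RD
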